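import Mathlib
import Pool.Agent.H482.LP.L2

/-!
# Almost all primes `q` are the least primitive root of infinitely many primes

There is an absolute constant `C` such that in every interval `[y, 2 y)` all primes `q`, with at most `C`
exceptions, are the least positive primitive root modulo infinitely many primes `p`; in fact there are
arbitrarily large `x` with at least `δ x / log² x` such primes `p ≤ x`. So at most `C (1 + log₂ X)` of the
primes `q ≤ X` are exceptional. The primes `p` can also be taken in a residue class `a` modulo `M`, where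
the prime factors `r` of `M` are at least `2 y` and `a ≢ 1 mod r`, with the same constant `C`.
-/

set_option autoImplicit false

namespace Pool.Agent.Results.MP_265190_nt.AllButFewPrimes

open Finset

/-- `g` is the least positive primitive root modulo the prime `p`. -/
def LeastRoot (g p : ℕ) : Prop := IsLeast {h : ℕ | 0 < h ∧ orderOf (h : ZMod p) = p - 1} g

open Classical in
/-- The primes `p ≤ x`, `p ≡ a mod M`, whose least positive primitive root is `g`. -/
noncomputable def S (g M a x : ℕ) : Finset ℕ :=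
  (Icc 1 x).filter (fun p => p.Prime ∧ p ≡ a [MOD M] ∧ LeastRoot g p)

/-- For some `δ > 0` there are arbitrarily large `x` such that at least `δ x / log² x` primes `p ≤ x`,
`p ≡ a mod M`, have the least positive primitive root `g`. -/
def Many (g M a : ℕ) : Prop :=
  ∃ δ : ℝ, 0 < δ ∧ ∀ X : ℕ, ∃ x : ℕ, X ≤ x ∧ δ * (x / (Real.log x) ^ 2) ≤ ((S g M a x).card : ℝ)

theorem least_iff (g p : ℕ) (hg : 0 < g) : LeastRoot g p ↔ Pool.Agent.H482.LP.Least g p := by
  constructor
  · rintro ⟨h1, h2⟩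
    refine ⟨h1.2, fun h h0 hlt heq => ?_⟩
    have := h2 (show h ∈ {h : ℕ | 0 < h ∧ orderOf (h : ZMod p) = p - 1} from ⟨h0, heq⟩)
    omega
  · rintro ⟨h1, h2⟩
    refine ⟨⟨hg, h1⟩, ?_⟩
    rintro h ⟨h0, heq⟩
    by_contra hcon
    push Not at hcon
    exact h2 h h0 hcon heq

theorem S_eq (g M a x : ℕ) (hg : 0 < g) : Pool.Agent.H482.LP.SS g M a x = S g M a x := by
  classical
  ext p
  unfold Pool.Agent.H482.LP.SS S
  simp only [mem_filter, least_iff g p hg]

theorem many_iff (g M a : ℕ) (hg : 0 < g) : Pool.Agent.H482.LP.Many g M a ↔ Many g M a := by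
  unfold Pool.Agent.H482.LP.Many Many
  simp only [S_eq g M a _ hg]

theorem infinite_of_many (q : ℕ) (h : Many q 1 0) : {p : ℕ | p.Prime ∧ LeastRoot q p}.Infinite := by
  classical
  intro hfin
  obtain ⟨δ, hδ, h⟩ := h
  have hev := Pool.Agent.H482.RG.ev_saving (hfin.toFinset.card + 1) 0 δ (by positivity) le_rfl hδ 1 le_rfl
  obtain ⟨X, hX⟩ := Filter.eventually_atTop.1 hev
  obtain ⟨x, hx, h1⟩ := h X
  have h2 := hX x hx
  rw [zero_mul, add_zero] at h2
  have h3 : (S q 1 0 x).card ≤ hfin.toFinset.card := by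
    apply card_le_card
    intro p hp
    unfold S at hp
    rw [mem_filter] at hp
    rw [Set.Finite.mem_toFinset]
    exact ⟨hp.2.1, hp.2.2.2⟩
  have h4 : ((S q 1 0 x).card : ℝ) ≤ hfin.toFinset.card := by exact_mod_cast h3
  linarith

/-- **Main theorem.** -/
theorem result : ∃ C : ℕ,
    -- the primes of `[y, 2 y)`, in progressions
    (∀ y M a : ℕ, M ≠ 0 → (∀ r : ℕ, r.Prime → r ∣ M → 5 ≤ r ∧ 2 * y ≤ r) → a.Coprime M →
      (∀ r : ℕ, r.Prime → r ∣ M → ¬ a ≡ 1 [MOD r]) →
      ∀ Q : Finset ℕ, (∀ q ∈ Q, q.Prime ∧ y ≤ q ∧ q < 2 * y ∧ ¬ Many q M a) → Q.card ≤ C) ∧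
    -- the primes up to `X`
    ∀ X : ℕ, ∀ Q : Finset ℕ, (∀ q ∈ Q, q.Prime ∧ q ≤ X ∧ {p : ℕ | p.Prime ∧ LeastRoot q p}.Finite) →
      Q.card ≤ C * (Nat.log 2 X + 1) := by
  classical
  obtain ⟨C, hC⟩ := Pool.Agent.H482.LP.main
  have h1 : ∀ y M a : ℕ, M ≠ 0 → (∀ r : ℕ, r.Prime → r ∣ M → 5 ≤ r ∧ 2 * y ≤ r) → a.Coprime M →
      (∀ r : ℕ, r.Prime → r ∣ M → ¬ a ≡ 1 [MOD r]) →
      ∀ Q : Finset ℕ, (∀ q ∈ Q, q.Prime ∧ y ≤ q ∧ q < 2 * y ∧ ¬ Many q M a) → Q.card ≤ C := by
    intro y M a hM hMr ha har Q hQ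
    apply hC y M a hM hMr ha har Q
    intro q hq
    obtain ⟨h2, h3, h4, h5⟩ := hQ q hq
    exact ⟨h2, h3, h4, fun h => h5 ((many_iff q M a h2.pos).1 h)⟩
  refine ⟨C, h1, ?_⟩
  intro X Q hQ
  have hdec : Q.card = ∑ j ∈ range (Nat.log 2 X + 1), (Q.filter (fun q => Nat.log 2 q = j)).card := by
    apply card_eq_sum_card_fiberwise
    intro q hq
    have h2 := (hQ q hq).2.1
    have h3 : Nat.log 2 q ≤ Nat.log 2 X := Nat.log_mono_right h2
    simp only [coe_range, Set.mem_Iio]
    omega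
  rw [hdec]
  refine (sum_le_card_nsmul _ _ C ?_).trans ?_
  · intro j _
    apply h1 (2 ^ j) 1 0 one_ne_zero
    · intro r hr h
      exact absurd (Nat.dvd_one.1 h) hr.one_lt.ne'
    · exact Nat.coprime_one_right _
    · intro r hr h
      exact absurd (Nat.dvd_one.1 h) hr.one_lt.ne'
    · intro q hq
      rw [mem_filter] at hq
      obtain ⟨hq1, hq2⟩ := hq
      obtain ⟨hqp, hqX, hfin⟩ := hQ q hq1
      have h3 := (Nat.log_eq_iff (Or.inr ⟨by norm_num, hqp.ne_zero⟩)).1 hq2
      refine ⟨hqp, h3.1, ?_, fun h => infinite_of_many q h hfin⟩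
      rw [pow_succ] at h3
      omega
  · rw [card_range, smul_eq_mul, mul_comm]

end Pool.Agent.Results.MP_265190_nt.AllButFewPrimes
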